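import Pool.Agent.Y265.HY.SB6
import Pool.Agent.Y265.RW.Fn3

/-! `h |f|² → 0` locally uniformly, flat case. -/
set_option autoImplicit false
open MeasureTheory Filter Topology Complex Set
open scoped ContDiff Real Manifold

namespace Pool.Agent.Y265.FL

open Pool.Agent.W745.RW Pool.Agent.TH294.RS Pool.Agent.Y265.HY
open Pool.Agent.Y265.RW (cutoff int_mulr)

noncomputable section

/-- the pointwise bound -/
theorem ptwF {F : ℂ → ℝ} (hF : ContDiff ℝ ∞ F) {L R : ℝ} (hL : 0 < L) (hR : 0 < R)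
    (hLR : 1 ≤ L * R ^ 2)
    (pde : ∀ z : ℂ, ‖z‖ ≤ R → fx (fx F) z + fy (fy F) z = -(L * F z)) :
    F 0 ^ 2 ≤ 16 / π * (√L / R) * ∫ z in Metric.ball (0 : ℂ) R, F z ^ 2 := by
  have hp := Real.pi_pos
  have cF := hF.continuous
  have ce : ∀ ρ : ℝ, Continuous (fun θ : ℝ => (ρ : ℂ) * ev θ) := fun ρ =>
    continuous_const.mul ev_cont
  have en := energy (M := MM F) (P := PP' F) (Lam := fun _ => L)
    (Lam' := fun _ => 0) hL hR hLR (fun ρ => MM_d hF ρ) PP0
    (fun ρ hρ => by
      refine (NN_d hF ρ).congr_deriv ?_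
      have e : Av (fun _ => 1) (fun z => fx (fx F) z + fy (fy F) z) ρ = -(L * HY.MM F ρ) := by
        unfold HY.MM Av
        rw [← intervalIntegral.integral_const_mul, ← intervalIntegral.integral_neg]
        refine intervalIntegral.integral_congr fun θ _ => ?_
        have hn : ‖(ρ : ℂ) * ev θ‖ = ρ := by
          rw [norm_mul, ev_norm, mul_one, Complex.norm_real, Real.norm_eq_abs, abs_of_nonneg hρ.1]
        have := pde ((ρ : ℂ) * ev θ) (by rw [hn]; exact hρ.2)
        simp only [this]; ring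
      rw [e]; ring)
    (fun ρ _ => hasDerivAt_const ρ L) (fun _ _ => le_rfl) (fun _ _ => le_rfl)
    (fun _ _ => by linarith) (fun _ _ => by linarith)
  have cs : ∀ s : ℝ, HY.MM F s ^ 2 ≤ 2 * π * ∫ θ in (-π)..π, F ((s : ℂ) * ev θ) ^ 2 := fun s => by
    have := cs_mean (cF.comp (ce s))
    simpa [HY.MM, Av] using this
  have cM : Continuous (HY.MM F) := continuous_iff_continuousAt.2 fun x => (MM_d hF x).continuousAt
  have cM2 : Continuous (fun s : ℝ => ∫ θ in (-π)..π, F ((s : ℂ) * ev θ) ^ 2) := by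
    have : Continuous (HY.MM (fun z => F z ^ 2)) := continuous_iff_continuousAt.2 fun x =>
      (MM_d (hF.pow 2) x).continuousAt
    have e : HY.MM (fun z => F z ^ 2) = fun s : ℝ => ∫ θ in (-π)..π, F ((s : ℂ) * ev θ) ^ 2 := by
      funext s; simp [HY.MM, Av]
    rwa [e] at this
  have le1 : ∫ s in (0:ℝ)..R, s * HY.MM F s ^ 2 ≤
      ∫ s in (0:ℝ)..R, 2 * π * (s * ∫ θ in (-π)..π, F ((s : ℂ) * ev θ) ^ 2) := by
    refine intervalIntegral.integral_mono_on hR.le ((continuous_id.mul (cM.pow 2)).intervalIntegrable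
      _ _) ((continuous_const.mul (continuous_id.mul cM2)).intervalIntegrable _ _) fun s hs => ?_
    have h1 := mul_le_mul_of_nonneg_left (cs s) hs.1
    calc s * HY.MM F s ^ 2 ≤ s * (2 * π * ∫ θ in (-π)..π, F ((s : ℂ) * ev θ) ^ 2) := h1
      _ = _ := by ring
  rw [intervalIntegral.integral_const_mul, ← polar cF hR] at le1
  rw [MM0] at en
  have k0 : 0 ≤ 32 * (√L / R) := by positivity
  have en2 := en.trans (mul_le_mul_of_nonneg_left le1 k0)
  have hpp : (0:ℝ) < (2 * π) ^ 2 := by positivity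
  have : (2 * π) ^ 2 * F 0 ^ 2 ≤ (2 * π) ^ 2 * (16 / π * (√L / R) *
      ∫ z in Metric.ball (0 : ℂ) R, F z ^ 2) := by
    calc (2 * π) ^ 2 * F 0 ^ 2 = (2 * π * F 0) ^ 2 := by ring
      _ ≤ 32 * (√L / R) * (2 * π * ∫ z in Metric.ball (0 : ℂ) R, F z ^ 2) := en2
      _ = _ := by field_simp; ring
  exact le_of_mul_le_mul_left this hpp

theorem disc_flat {B : Set ℂ} (hB : IsOpen B) {u : ℂ → ℝ} (hu : ContDiffOn ℝ ∞ u B) {lam : ℝ}
    (hlam : 0 < lam) (pde : ∀ z ∈ B, lap u z = -(lam * u z)) {p : ℂ}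
    {R : ℝ} (hR0 : 0 < R) (hsub : Metric.closedBall p (2 * R) ⊆ B)
    (hlamR : 1 ≤ lam * R ^ 2) :
    u p ^ 2 ≤ 16 / π * (√lam / R) * ∫ z in Metric.ball p R, u z ^ 2 := by
  set V : Set ℂ := (fun w => p + w) ⁻¹' B with hVd
  have hV : IsOpen V := hB.preimage (continuous_const.add continuous_id)
  have hKV : Metric.closedBall (0 : ℂ) (2 * R) ⊆ V := by
    intro w hw
    refine hsub ?_
    rw [mem_closedBall_zero_iff] at hw
    rw [Metric.mem_closedBall, dist_eq_norm]
    simpa using hw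
  have sv : ContDiffOn ℝ ∞ (fun w => u (p + w)) V :=
    hu.comp (contDiffOn_const.add contDiffOn_id) fun w hw => hw
  obtain ⟨ζ, hζ, -, -, hζ1⟩ := cutoff hV (isCompact_closedBall (0 : ℂ) (2 * R)) hKV
  set F : ℂ → ℝ := fun w => ζ w * u (p + w) with hF
  have sF : ContDiff ℝ ∞ F := (TF.mulc hV hζ sv).1
  have sub12 : Metric.closedBall (0 : ℂ) R ⊆ Metric.closedBall (0 : ℂ) (2 * R) :=
    Metric.closedBall_subset_closedBall (by linarith)
  have Feq : ∀ w ∈ Metric.closedBall (0 : ℂ) R, F w = u (p + w) := fun w hw => by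
    simp only [hF]; rw [hζ1 w (sub12 hw), one_mul]
  have key := ptwF sF (L := lam) hlam hR0 hlamR (fun z hz => by
    have hzK : z ∈ Metric.closedBall (0 : ℂ) R := by rwa [mem_closedBall_zero_iff]
    have hzV : z ∈ V := hKV (sub12 hzK)
    have hev : F =ᶠ[𝓝 z] fun w => u (p + w) := by
      have : Metric.ball (0 : ℂ) (2 * R) ∈ 𝓝 z := Metric.isOpen_ball.mem_nhds (by
        rw [mem_ball_zero_iff]; linarith)
      filter_upwards [this] with x hx
      simp only [hF]; rw [hζ1 x (Metric.ball_subset_closedBall hx), one_mul]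
    have hl : fx (fx F) z + fy (fy F) z = lap (fun w => u (p + w)) z := by
      have h1 : ∀ v : ℂ, (fun w => fderiv ℝ F w v) =ᶠ[𝓝 z]
          fun w => fderiv ℝ (fun w => u (p + w)) w v := fun v => by
        filter_upwards [hev.fderiv (𝕜 := ℝ)] with x hx
        rw [hx]
      have h2 : fderiv ℝ (fun w => fderiv ℝ F w 1) z 1 =
          fderiv ℝ (fun w => fderiv ℝ (fun w => u (p + w)) w 1) z 1 := by
        rw [(h1 1).fderiv_eq]
      have h3 : fderiv ℝ (fun w => fderiv ℝ F w I) z I =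
          fderiv ℝ (fun w => fderiv ℝ (fun w => u (p + w)) w I) z I := by
        rw [(h1 I).fderiv_eq]
      have e1 : fx (fx F) z = fderiv ℝ (fun w => fderiv ℝ F w 1) z 1 := rfl
      have e2 : fy (fy F) z = fderiv ℝ (fun w => fderiv ℝ F w I) z I := rfl
      rw [e1, e2, h2, h3]; rfl
    rw [hl, lap_comp hB hV (T := fun w => p + w) (T1 := fun _ => 1) (T2 := fun _ => 0)
      (fun w _ => (hasDerivAt_id w).const_add p) (fun w _ => hasDerivAt_const w 1)
      (fun w hw => hw) hu hzV, Feq z hzK, pde (p + z) hzV]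
    simp)
  have F0 : F 0 = u p := by
    rw [Feq 0 (by simp [hR0.le]), add_zero]
  rw [F0] at key
  refine key.trans (le_of_eq ?_)
  congr 1
  rw [← integral_indicator measurableSet_ball, ← integral_indicator measurableSet_ball,
    ← integral_add_left_eq_self (μ := (volume : Measure ℂ))
      ((Metric.ball p R).indicator (fun z => u z ^ 2)) p]
  congr 1; funext z
  by_cases hz : z ∈ Metric.ball (0 : ℂ) R
  · have hz2 : p + z ∈ Metric.ball p R := by
      rw [Metric.mem_ball, dist_eq_norm]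
      simpa using hz
    rw [indicator_of_mem hz, indicator_of_mem hz2, Feq z (Metric.ball_subset_closedBall hz)]
  · have hz2 : p + z ∉ Metric.ball p R := by
      rw [Metric.mem_ball, dist_eq_norm]
      simpa using hz
    rw [indicator_of_notMem hz, indicator_of_notMem hz2]

/-- `h |f|² → 0` -/
theorem sup_flat {B : Set ℂ} (hB : IsOpen B) {h : ℕ → ℝ} (hpos : ∀ n, 0 < h n)
    (hlim : Tendsto h atTop (𝓝 0)) {f : ℕ → ℂ → ℂ} (sf : ∀ n, ContDiffOn ℝ ∞ (f n) B)
    (pde : ∀ n, ∀ z ∈ B, (h n : ℂ) ^ 2 * lap (f n) z = - f n z)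
    (mass : ∀ φ, TF B φ → Tendsto (fun n => ∫ z, φ z * ‖f n z‖ ^ 2) atTop (𝓝 (∫ z, φ z)))
    {K : Set ℂ} (hK : IsCompact K) (hKB : K ⊆ B) {ε : ℝ} (hε : 0 < ε) :
    ∀ᶠ n in atTop, ∀ z ∈ K, h n * ‖f n z‖ ^ 2 ≤ ε := by
  have hpi := Real.pi_pos
  obtain ⟨δ0, hδ0, hth⟩ := hK.exists_cthickening_subset_open hB hKB
  set D : ℝ := 16 / π * (9 * π + 1) with hD
  have D0 : 0 ≤ D := by positivity
  set R : ℝ := min (δ0 / 3) (ε / (D + 1)) with hR
  have R0 : 0 < R := lt_min (by positivity) (by positivity)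
  have R2 : 3 * R ≤ δ0 := by
    have : R ≤ δ0 / 3 := min_le_left _ _
    linarith
  have R3 : D * R ≤ ε := by
    have : R ≤ ε / (D + 1) := min_le_right _ _
    rw [le_div_iff₀ (by positivity)] at this
    nlinarith
  obtain ⟨t, htK, htf, htc⟩ := hK.finite_cover_balls R0
  have ball_in : ∀ q ∈ K, ∀ r ≤ δ0, Metric.closedBall q r ⊆ B := fun q hq r hr =>
    (Metric.closedBall_subset_cthickening hq r).trans ((Metric.cthickening_mono hr K).trans hth)
  have hbump : ∀ q ∈ t, ∃ φ : ℂ → ℝ, TF B φ ∧ (∀ z, 0 ≤ φ z) ∧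
      (∀ z ∈ Metric.ball q (2 * R), φ z = 1) ∧ ∫ z, φ z ≤ 9 * π * R ^ 2 := fun q hq =>
    bump q R0 (ball_in q (htK hq) _ R2)
  have co : ∀ n, ContinuousOn (fun z => ‖f n z‖ ^ 2) B := fun n => (sf n).continuousOn.norm.pow 2
  have ev1 : ∀ᶠ n in atTop, ∀ q ∈ t, ∫ z in Metric.ball q (2 * R), ‖f n z‖ ^ 2 ≤
      (9 * π + 1) * R ^ 2 := by
    rw [eventually_all_finite htf]
    intro q hq
    obtain ⟨φ, hφ, hφ0, hφ1, hφI⟩ := hbump q hq
    have hlt : ∫ z, φ z < (9 * π + 1) * R ^ 2 := by nlinarith [pow_pos R0 2]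
    filter_upwards [(mass φ hφ).eventually (gt_mem_nhds hlt)] with n hn
    refine le_trans ?_ hn.le
    have i1 := int_mulr hB hφ (co n)
    have hcl : Metric.closedBall q (2 * R) ⊆ B := ball_in q (htK hq) _ (by linarith)
    calc ∫ z in Metric.ball q (2 * R), ‖f n z‖ ^ 2
        ≤ ∫ z in Metric.ball q (2 * R), φ z * ‖f n z‖ ^ 2 := by
          refine setIntegral_mono_on ?_ i1.integrableOn measurableSet_ball fun z hz => ?_
          · exact (ContinuousOn.integrableOn_compact (isCompact_closedBall q (2 * R))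
              ((co n).mono hcl)).mono_set Metric.ball_subset_closedBall
          · rw [hφ1 z hz, one_mul]
      _ ≤ ∫ z, φ z * ‖f n z‖ ^ 2 := setIntegral_le_integral i1
          (Eventually.of_forall fun z => mul_nonneg (hφ0 z) (sq_nonneg _))
  have ev2 : ∀ᶠ n in atTop, h n < R := hlim.eventually (gt_mem_nhds R0)
  filter_upwards [ev1, ev2] with n hn1 hn2 p hp
  have hh := hpos n
  have hpB := hKB hp
  have hsub : Metric.closedBall p (2 * R) ⊆ B := ball_in p hp _ (by linarith)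
  have one : ∀ (u : ℂ → ℝ), ContDiffOn ℝ ∞ u B → (∀ z ∈ B, lap u z = -(1 / h n ^ 2 * u z)) →
      h n * u p ^ 2 ≤ 16 / π / R * ∫ z in Metric.ball p R, u z ^ 2 := by
    intro u su pu
    have db := disc_flat hB su (lam := 1 / h n ^ 2) (by positivity) pu R0 hsub (by
      rw [div_mul_eq_mul_div, le_div_iff₀ (by positivity)]
      nlinarith)
    have hs : √(1 / h n ^ 2) = 1 / h n := by
      rw [show (1 : ℝ) / h n ^ 2 = (1 / h n) ^ 2 by field_simp]
      exact Real.sqrt_sq (by positivity)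
    rw [hs] at db
    calc h n * u p ^ 2 ≤ h n * (16 / π * (1 / h n / R) * ∫ z in Metric.ball p R, u z ^ 2) := by
          gcongr
      _ = _ := by field_simp
  have pdr : ∀ z ∈ B, lap (f n) z = ((-(1 / h n ^ 2) : ℝ) : ℂ) * f n z := fun z hz => by
    have h3 := pde n z hz
    have h5 : (h n : ℂ) ≠ 0 := by exact_mod_cast hh.ne'
    push_cast
    field_simp
    linear_combination h3
  have su1 : ContDiffOn ℝ ∞ (fun z => (f n z).re) B := reCLM.contDiff.comp_contDiffOn (sf n)
  have su2 : ContDiffOn ℝ ∞ (fun z => (-I * f n z).re) B :=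
    reCLM.contDiff.comp_contDiffOn (contDiffOn_const.mul (sf n))
  have o1 := one _ su1 (fun z hz => by
    rw [HY.lap_re hB (sf n) hz, pdr z hz, re_ofReal_mul]; ring)
  have o2 := one _ su2 (fun z hz => by
    have sI : ContDiffOn ℝ ∞ (fun z => -I * f n z) B := contDiffOn_const.mul (sf n)
    rw [HY.lap_re hB sI hz]
    have e1 : lap (fun z => -I * f n z) z = -I * lap (f n) z := by
      have g1 : ∀ v : ℂ, fderiv ℝ (fun w => fderiv ℝ (fun z => -I * f n z) w v) z v =
          -I * fderiv ℝ (fun w => fderiv ℝ (f n) w v) z v := by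
        intro v
        have e : (fun w => fderiv ℝ (fun z => -I * f n z) w v) =ᶠ[𝓝 z]
            fun w => -I * fderiv ℝ (f n) w v := by
          filter_upwards [hB.mem_nhds hz] with x hx
          rw [fd_cm (fda hB (sf n) hx)]
        rw [e.fderiv_eq, fd_cm (fda hB (cfd hB (sf n) v) hz)]
      show fderiv ℝ (fun w => fderiv ℝ (fun z => -I * f n z) w 1) z 1 +
        fderiv ℝ (fun w => fderiv ℝ (fun z => -I * f n z) w I) z I =
        -I * (fderiv ℝ (fun w => fderiv ℝ (f n) w 1) z 1 +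
          fderiv ℝ (fun w => fderiv ℝ (f n) w I) z I)
      rw [g1, g1]; ring
    rw [e1, pdr z hz]
    have e2 : -I * (((-(1 / h n ^ 2) : ℝ) : ℂ) * f n z) =
        ((-(1 / h n ^ 2) : ℝ) : ℂ) * (-I * f n z) := by ring
    rw [e2, re_ofReal_mul]; ring)
  have nrm : ∀ z, ‖f n z‖ ^ 2 = (f n z).re ^ 2 + (-I * f n z).re ^ 2 := fun z => by
    rw [← Complex.normSq_eq_norm_sq, normSq_apply]
    simp; ring
  have hcl : Metric.closedBall p R ⊆ B := ball_in p hp _ (by linarith)
  have j1 : IntegrableOn (fun z => (f n z).re ^ 2) (Metric.ball p R) :=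
    (((su1.continuousOn.mono hcl).pow 2).integrableOn_compact (isCompact_closedBall _ _)).mono_set
      Metric.ball_subset_closedBall
  have j2 : IntegrableOn (fun z => (-I * f n z).re ^ 2) (Metric.ball p R) :=
    (((su2.continuousOn.mono hcl).pow 2).integrableOn_compact (isCompact_closedBall _ _)).mono_set
      Metric.ball_subset_closedBall
  have tot : (∫ z in Metric.ball p R, (f n z).re ^ 2) + ∫ z in Metric.ball p R, (-I * f n z).re ^ 2 =
      ∫ z in Metric.ball p R, ‖f n z‖ ^ 2 := by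
    rw [← integral_add j1 j2]
    congr 1; funext z; exact (nrm z).symm
  have hmass : ∫ z in Metric.ball p R, ‖f n z‖ ^ 2 ≤ (9 * π + 1) * R ^ 2 := by
    obtain ⟨q, hq, hpq⟩ : ∃ q ∈ t, p ∈ Metric.ball q R := by
      have := htc hp
      simpa using this
    refine le_trans ?_ (hn1 q hq)
    have s1 : Metric.ball p R ⊆ Metric.ball q (2 * R) := by
      refine Metric.ball_subset_ball' ?_
      have : dist p q < R := hpq
      linarith
    have hcl2 : Metric.closedBall q (2 * R) ⊆ B := ball_in q (htK hq) _ (by linarith)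
    have i1 : IntegrableOn (fun z => ‖f n z‖ ^ 2) (Metric.ball q (2 * R)) :=
      (ContinuousOn.integrableOn_compact (isCompact_closedBall q (2 * R))
        ((co n).mono hcl2)).mono_set Metric.ball_subset_closedBall
    exact setIntegral_mono_set i1 (Eventually.of_forall fun z => sq_nonneg _)
      (LE.le.eventuallyLE s1)
  calc h n * ‖f n p‖ ^ 2 = h n * (f n p).re ^ 2 + h n * (-I * f n p).re ^ 2 := by
        rw [nrm p]; ring
    _ ≤ 16 / π / R * (∫ z in Metric.ball p R, (f n z).re ^ 2) +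
        16 / π / R * ∫ z in Metric.ball p R, (-I * f n z).re ^ 2 := add_le_add o1 o2
    _ = 16 / π / R * ∫ z in Metric.ball p R, ‖f n z‖ ^ 2 := by rw [← mul_add, tot]
    _ ≤ 16 / π / R * ((9 * π + 1) * R ^ 2) := by gcongr
    _ = D * R := by rw [hD]; field_simp
    _ ≤ ε := R3

end

end Pool.Agent.Y265.FL
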