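import Pool.Agent.Y265.HY.SB10

/-! The excess of the fourth moment controls all fourth moments: abstract form. -/
set_option autoImplicit false
open MeasureTheory Filter Topology Complex Set
open scoped ContDiff Real Manifold

namespace Pool.Agent.Y265.FX

open Pool.Agent.W745.RW Pool.Agent.TH294.RS Pool.Agent.Y265.HY

noncomputable section

variable {B : Set ℂ} {w : ℤ → ℕ → ℂ → ℂ}

theorem dd_of (co : ∀ k n, ContinuousOn (w k n) B)
    (tP : ∀ i j k l : ℤ, WN B (fun n z => w (i + 1) n z * w j n z * w k n z * w l n z +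
      w i n z * w (j + 1) n z * w k n z * w l n z + w i n z * w j n z * w (k + 1) n z * w l n z +
      w i n z * w j n z * w k n z * w (l + 1) n z))
    (tM : ∀ i j k l : ℤ, WN B (fun n z => w (i - 1) n z * w j n z * w k n z * w l n z +
      w i n z * w (j - 1) n z * w k n z * w l n z + w i n z * w j n z * w (k - 1) n z * w l n z +
      w i n z * w j n z * w k n z * w (l - 1) n z))
    (nF : ∀ a b c d : ℤ,
      WN B (fun n z => w (a + 1) n z * w (b + 1) n z * w (c - 1) n z * w (d - 1) n z +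
      w (a - 1) n z * w (b - 1) n z * w (c + 1) n z * w (d + 1) n z -
      2 * (w a n z * w b n z * w c n z * w d n z) -
      (CC (a + 1) (b + 1) * CC (c - 1) (d - 1) + CC (a - 1) (b - 1) * CC (c + 1) (d + 1) -
        2 * CC a b * CC c d))) {φ : ℂ → ℝ}
    (hφ : TF B φ) : DD (D4 w φ) := by
  set J : ℂ := ((∫ z, φ z : ℝ) : ℂ) with hJ
  have hc : ∀ i j k l n, ContinuousOn (F4 w i j k l n) B := fun i j k l n =>
    (((co i n).mul (co j n)).mul (co k n)).mul (co l n)
  have I4 : ∀ i j k l n, Integrable (fun z => (φ z : ℂ) * F4 w i j k l n z) :=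
    fun i j k l n => TF.cint hφ (hc i j k l n)
  have IJ : Integrable (fun z => (φ z : ℂ)) :=
    (hφ.1.continuous.integrable_of_hasCompactSupport hφ.2.1).ofReal
  have hJ' : ∀ c : ℂ, ∫ z, (φ z : ℂ) * c = c * J := by
    intro c
    rw [integral_mul_const, hJ, integral_complex_ofReal, mul_comm]
  set D : ℤ → ℤ → ℤ → ℤ → ℕ → ℂ := D4 w φ with hD0
  have hD : D = fun i j k l n => (∫ z, (φ z : ℂ) * F4 w i j k l n z) -
    Pool.Agent.W745.RW.GG i j k l * J := rfl
  have s1 : ∀ i j k l, D i j k l = D j i k l := fun i j k l => by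
      ext n
      simp only [hD]
      rw [GG12]
      congr 2; funext z; simp only [F4]; ring
  have s2 : ∀ i j k l, D i j k l = D i k j l := fun i j k l => by
      ext n
      simp only [hD]
      rw [GG23]
      congr 2; funext z; simp only [F4]; ring
  have s3 : ∀ i j k l, D i j k l = D i j l k := fun i j k l => by
      ext n
      simp only [hD]
      rw [GG34]
      congr 2; funext z; simp only [F4]; ring
  have R1 : ∀ i j k l, Null (fun n => D (i+1) j k l n + D i (j+1) k l n + D i j (k+1) l n +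
      D i j k (l+1) n) := fun i j k l => by
      have h1 := (tP i j k l).nul φ hφ
      have h2 := GG_T i j k l
      refine h1.congr (fun n => ?_)
      have h3 : ∫ z, (φ z : ℂ) * (w (i + 1) n z * w j n z * w k n z * w l n z +
          w i n z * w (j + 1) n z * w k n z * w l n z +
          w i n z * w j n z * w (k + 1) n z * w l n z +
          w i n z * w j n z * w k n z * w (l + 1) n z) =
          (∫ z, (φ z : ℂ) * F4 w (i + 1) j k l n z) + (∫ z, (φ z : ℂ) * F4 w i (j + 1) k l n z) +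
          (∫ z, (φ z : ℂ) * F4 w i j (k + 1) l n z) + ∫ z, (φ z : ℂ) * F4 w i j k (l + 1) n z := by
        rw [Pool.Agent.W450.RW.T.add4 (I4 _ _ _ _ _) (I4 _ _ _ _ _) (I4 _ _ _ _ _)
          (I4 _ _ _ _ _)]
        congr 1; funext z; simp only [F4]; ring
      rw [h3]
      simp only [hD]
      linear_combination J * h2
  have R2 : ∀ i j k l, Null (fun n => D (i-1) j k l n + D i (j-1) k l n + D i j (k-1) l n +
      D i j k (l-1) n) := fun i j k l => by
      have h1 := (tM i j k l).nul φ hφ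
      have h2 := GG_T' i j k l
      refine h1.congr (fun n => ?_)
      have h3 : ∫ z, (φ z : ℂ) * (w (i - 1) n z * w j n z * w k n z * w l n z +
          w i n z * w (j - 1) n z * w k n z * w l n z +
          w i n z * w j n z * w (k - 1) n z * w l n z +
          w i n z * w j n z * w k n z * w (l - 1) n z) =
          (∫ z, (φ z : ℂ) * F4 w (i - 1) j k l n z) + (∫ z, (φ z : ℂ) * F4 w i (j - 1) k l n z) +
          (∫ z, (φ z : ℂ) * F4 w i j (k - 1) l n z) + ∫ z, (φ z : ℂ) * F4 w i j k (l - 1) n z := by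
        rw [Pool.Agent.W450.RW.T.add4 (I4 _ _ _ _ _) (I4 _ _ _ _ _) (I4 _ _ _ _ _)
          (I4 _ _ _ _ _)]
        congr 1; funext z; simp only [F4]; ring
      rw [h3]
      simp only [hD]
      linear_combination J * h2
  have NN : ∀ i j k l, Null (fun n => D (i+1) (j+1) (k-1) (l-1) n + D (i-1) (j-1) (k+1) (l+1) n -
      2 * D i j k l n) := fun i j k l => by
      have h1 := (nF i j k l).nul φ hφ
      have h2 := GG_N i j k l
      rw [← h2] at h1
      refine h1.congr (fun n => ?_)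
      have h3 : ∫ z, (φ z : ℂ) * (w (i + 1) n z * w (j + 1) n z * w (k - 1) n z * w (l - 1) n z +
          w (i - 1) n z * w (j - 1) n z * w (k + 1) n z * w (l + 1) n z -
          2 * (w i n z * w j n z * w k n z * w l n z) -
          (Pool.Agent.W745.RW.GG (i+1) (j+1) (k-1) (l-1) +
            Pool.Agent.W745.RW.GG (i-1) (j-1) (k+1) (l+1) -
            2 * Pool.Agent.W745.RW.GG i j k l)) =
          (∫ z, (φ z : ℂ) * F4 w (i + 1) (j + 1) (k - 1) (l - 1) n z) +
          (∫ z, (φ z : ℂ) * F4 w (i - 1) (j - 1) (k + 1) (l + 1) n z) -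
          2 * (∫ z, (φ z : ℂ) * F4 w i j k l n z) -
          ∫ z, (φ z : ℂ) * (Pool.Agent.W745.RW.GG (i+1) (j+1) (k-1) (l-1) +
            Pool.Agent.W745.RW.GG (i-1) (j-1) (k+1) (l+1) -
            2 * Pool.Agent.W745.RW.GG i j k l) := by
        have i1 := I4 (i + 1) (j + 1) (k - 1) (l - 1) n
        have i2 := I4 (i - 1) (j - 1) (k + 1) (l + 1) n
        have i3 := (I4 i j k l n).const_mul 2
        have i12 : Integrable (fun z => (φ z : ℂ) * F4 w (i + 1) (j + 1) (k - 1) (l - 1) n z +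
          (φ z : ℂ) * F4 w (i - 1) (j - 1) (k + 1) (l + 1) n z) := i1.add i2
        have i123 : Integrable (fun z => (φ z : ℂ) * F4 w (i + 1) (j + 1) (k - 1) (l - 1) n z +
          (φ z : ℂ) * F4 w (i - 1) (j - 1) (k + 1) (l + 1) n z -
          2 * ((φ z : ℂ) * F4 w i j k l n z)) := i12.sub i3
        rw [← integral_const_mul, ← integral_add i1 i2, ← integral_sub i12 i3,
          ← integral_sub i123 (IJ.mul_const _)]
        congr 1; funext z; simp only [F4]; ring
      rw [h3, hJ']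
      simp only [hD]
      ring
  exact ⟨s1, s2, s3, R1, R2, NN⟩

/-- ladder families with all the relations between the fourth moments -/
structure FR (B : Set ℂ) (w : ℤ → ℕ → ℂ → ℂ) : Prop where
  co : ∀ k n, ContinuousOn (w k n) B
  cj : ∀ k n, ∀ z ∈ B, (starRingEnd ℂ) (w k n z) = (-1) ^ k.natAbs * w (-k) n z
  two : ∀ i j, WN B (fun n z => w i n z * w j n z - CC i j)
  dd : ∀ φ, TF B φ → DD (D4 w φ)

lemma bb_conj (H : FR B w) (l m : ℤ) (n : ℕ) {z : ℂ} (hz : z ∈ B) :
    (starRingEnd ℂ) (bb w l m n z) = w (-(2 * m)) n z * w (-(2 * l - 2 * m)) n z -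
      (if l = 0 then 1 else 0) := by
  unfold bb
  rw [map_sub, map_mul, H.cj _ n z hz, H.cj _ n z hz, evn m,
    evn' (show 2 * l - 2 * m = 2 * (l - m) by ring)]
  split_ifs <;> simp

lemma bb_co (H : FR B w) (j k : ℤ) (n : ℕ) : ContinuousOn (bb w j k n) B :=
  ((H.co _ n).mul (H.co _ n)).sub continuousOn_const

/-- the limit of the correlations of centred products -/
lemma ipbb (H : FR B w) {φ : ℂ → ℝ}
    (hφ : TF B φ) (j k l m : ℤ) :
    Null (fun n => (∫ z, (φ z : ℂ) * (bb w j k n z * (starRingEnd ℂ) (bb w l m n z))) -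
      D4 w φ (2 * (j - l)) 0 0 0 n -
      ((if k = m ∧ j = l then 1 else 0) + (if k + m = l ∧ j = l then 1 else 0)) *
        ((∫ z, φ z : ℝ) : ℂ)) := by
  set J : ℂ := ((∫ z, φ z : ℝ) : ℂ) with hJ
  set δj : ℂ := if j = 0 then 1 else 0 with hδj
  set δl : ℂ := if l = 0 then 1 else 0 with hδl
  have co := H.co
  have IJ : Integrable (fun z => (φ z : ℂ)) :=
    (hφ.1.continuous.integrable_of_hasCompactSupport hφ.2.1).ofReal
  have hJ' : ∀ c : ℂ, ∫ z, (φ z : ℂ) * c = c * J := by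
    intro c
    rw [integral_mul_const, hJ, integral_complex_ofReal, mul_comm]
  have two : ∀ x y : ℤ, Null (fun n => (∫ z, (φ z : ℂ) * (w x n z * w y n z)) - CC x y * J) := by
    intro x y
    refine ((H.two x y).nul φ hφ).congr fun n => ?_
    have i1 : Integrable (fun z => (φ z : ℂ) * (w x n z * w y n z)) :=
      TF.cint hφ ((co x n).mul (co y n))
    rw [← hJ' (CC x y), ← integral_sub i1 (IJ.mul_const _)]
    congr 1; funext z; ring
  have E := (H.dd φ hφ).even (2 * k) (2 * j - 2 * k) (-(2 * m)) (-(2 * l - 2 * m)) (j - l)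
    (by ring)
  have ep : eps (2 * k) (2 * j - 2 * k) (-(2 * m)) (-(2 * l - 2 * m)) = 1 := by
    unfold eps
    rw [if_pos (by omega)]
  rw [ep] at E
  have t1 := two (2 * k) (2 * j - 2 * k)
  have t2 := two (-(2 * m)) (-(2 * l - 2 * m))
  have c1 : CC (2 * k) (2 * j - 2 * k) = δj := by
    rw [cc_ev (k := k) rfl, hδj]
    congr 1
    exact propext ⟨fun h => by omega, fun h => by omega⟩
  have c2 : CC (-(2 * m)) (-(2 * l - 2 * m)) = δl := by
    rw [cc_ev (k := -m) (by ring), hδl]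
    congr 1
    exact propext ⟨fun h => by omega, fun h => by omega⟩
  rw [c1] at t1
  rw [c2] at t2
  have g1 : CC (2 * k) (-(2 * m)) * CC (2 * j - 2 * k) (-(2 * l - 2 * m)) =
      if k = m ∧ j = l then 1 else 0 := by
    rw [cc_ev (k := k) rfl, cc_ev (k := j - k) (by ring)]
    by_cases a1 : k = m
    · by_cases a2 : j = l
      · rw [if_pos (by omega), if_pos (by omega), if_pos ⟨a1, a2⟩, one_mul]
      · rw [if_neg (c := 2 * j - 2 * k + -(2 * l - 2 * m) = 0) (by omega),
          if_neg (c := k = m ∧ j = l) (fun h => a2 h.2), mul_zero]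
    · rw [if_neg (c := 2 * k + -(2 * m) = 0) (by omega),
        if_neg (c := k = m ∧ j = l) (fun h => a1 h.1), zero_mul]
  have g2 : CC (2 * k) (-(2 * l - 2 * m)) * CC (2 * j - 2 * k) (-(2 * m)) =
      if k + m = l ∧ j = l then 1 else 0 := by
    rw [cc_ev (k := k) rfl, cc_ev (k := j - k) (by ring)]
    by_cases a1 : k + m = l
    · by_cases a2 : j = l
      · rw [if_pos (by omega), if_pos (by omega), if_pos ⟨a1, a2⟩, one_mul]
      · rw [if_neg (c := 2 * j - 2 * k + -(2 * m) = 0) (by omega),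
          if_neg (c := k + m = l ∧ j = l) (fun h => a2 h.2), mul_zero]
    · rw [if_neg (c := 2 * k + -(2 * l - 2 * m) = 0) (by omega),
        if_neg (c := k + m = l ∧ j = l) (fun h => a1 h.1), zero_mul]
  have gg : Pool.Agent.W745.RW.GG (2 * k) (2 * j - 2 * k) (-(2 * m)) (-(2 * l - 2 * m)) =
      δj * δl + ((if k = m ∧ j = l then 1 else 0) + (if k + m = l ∧ j = l then 1 else 0)) := by
    unfold Pool.Agent.W745.RW.GG
    rw [c1, c2, g1, g2]; ring
  refine Tendsto.congr (fun n => ?_) (Pool.Agent.Y265.RW.Null.sub (Pool.Agent.Y265.RW.Null.sub E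
    (Pool.Agent.Y265.RW.Null.cmul t1 δl)) (Pool.Agent.Y265.RW.Null.cmul t2 δj))
  have i4 : Integrable (fun z => (φ z : ℂ) * F4 w (2 * k) (2 * j - 2 * k) (-(2 * m))
      (-(2 * l - 2 * m)) n z) :=
    TF.cint hφ ((((co _ n).mul (co _ n)).mul (co _ n)).mul (co _ n))
  have i2 : Integrable (fun z => δl * ((φ z : ℂ) * (w (2 * k) n z * w (2 * j - 2 * k) n z))) :=
    (TF.cint hφ ((co _ n).mul (co _ n))).const_mul _
  have i3 : Integrable (fun z => δj * ((φ z : ℂ) * (w (-(2 * m)) n z *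
      w (-(2 * l - 2 * m)) n z))) :=
    (TF.cint hφ ((co _ n).mul (co _ n))).const_mul _
  have i42 : Integrable (fun z => (φ z : ℂ) * F4 w (2 * k) (2 * j - 2 * k) (-(2 * m))
      (-(2 * l - 2 * m)) n z - δl * ((φ z : ℂ) * (w (2 * k) n z * w (2 * j - 2 * k) n z))) :=
    i4.sub i2
  have i423 : Integrable (fun z => (φ z : ℂ) * F4 w (2 * k) (2 * j - 2 * k) (-(2 * m))
      (-(2 * l - 2 * m)) n z - δl * ((φ z : ℂ) * (w (2 * k) n z * w (2 * j - 2 * k) n z)) -
      δj * ((φ z : ℂ) * (w (-(2 * m)) n z * w (-(2 * l - 2 * m)) n z))) := i42.sub i3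
  have key : ∫ z, (φ z : ℂ) * (bb w j k n z * (starRingEnd ℂ) (bb w l m n z)) =
      (∫ z, (φ z : ℂ) * F4 w (2 * k) (2 * j - 2 * k) (-(2 * m)) (-(2 * l - 2 * m)) n z) -
      δl * (∫ z, (φ z : ℂ) * (w (2 * k) n z * w (2 * j - 2 * k) n z)) -
      δj * (∫ z, (φ z : ℂ) * (w (-(2 * m)) n z * w (-(2 * l - 2 * m)) n z)) + δj * δl * J := by
    rw [← hJ' (δj * δl), ← integral_const_mul, ← integral_const_mul, ← integral_sub i4 i2,
      ← integral_sub i42 i3, ← integral_add i423 (IJ.mul_const _)]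
    congr 1; funext z
    by_cases hz : z ∈ B
    · rw [bb_conj H l m n hz]
      simp only [bb, F4]
      rw [← hδj, ← hδl]; ring
    · rw [TF.zero hφ hz]; simp
  rw [key]
  simp only [D4]
  rw [gg]
  ring

lemma TT_co (H : FR B w) (N : ℕ) (j : ℤ) (n : ℕ) : ContinuousOn (TT w N j n) B :=
  continuousOn_const.mul (continuousOn_finsetSum _ fun k _ => bb_co H j k n)

lemma ipTT (H : FR B w) {φ : ℂ → ℝ}
    (hφ : TF B φ) {N : ℕ} (hN : 0 < N) (j l : ℤ) : ∃ θ : ℝ, 0 ≤ θ ∧ θ ≤ 2 / N ∧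
    Null (fun n => (∫ z, (φ z : ℂ) * (TT w N j n z * (starRingEnd ℂ) (TT w N l n z))) -
      D4 w φ (2 * (j - l)) 0 0 0 n - θ * ((∫ z, φ z : ℝ) : ℂ)) := by
  set J : ℂ := ((∫ z, φ z : ℝ) : ℂ) with hJ
  have hNr : (0 : ℝ) < N := by exact_mod_cast hN
  have hNc : (N : ℂ) ≠ 0 := by exact_mod_cast hN.ne'
  set g : ℕ → ℕ → ℝ := fun k m => (if (k : ℤ) = m ∧ j = l then 1 else 0) +
    (if (k : ℤ) + m = l ∧ j = l then 1 else 0) with hg
  have g0 : ∀ k m, 0 ≤ g k m := fun k m => by
    simp only [hg]; split_ifs <;> norm_num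
  have row : ∀ k, ∑ m ∈ Finset.range N, g k m ≤ 2 := by
    intro k
    simp only [hg]
    rw [Finset.sum_add_distrib]
    have r1 : ∑ m ∈ Finset.range N, (if (k : ℤ) = m ∧ j = l then (1 : ℝ) else 0) ≤ 1 := by
      calc _ ≤ ∑ m ∈ Finset.range N, (if m = k then (1 : ℝ) else 0) := by
            refine Finset.sum_le_sum fun m _ => ?_
            by_cases hm : m = k
            · rw [if_pos hm]; split_ifs <;> norm_num
            · rw [if_neg hm, if_neg (fun h => hm (by omega))]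
        _ ≤ 1 := by
            rw [Finset.sum_ite_eq']
            split_ifs <;> norm_num
    have r2 : ∑ m ∈ Finset.range N, (if (k : ℤ) + m = l ∧ j = l then (1 : ℝ) else 0) ≤ 1 := by
      calc _ ≤ ∑ m ∈ Finset.range N, (if m = (l - k).toNat then (1 : ℝ) else 0) := by
            refine Finset.sum_le_sum fun m _ => ?_
            by_cases hm : m = (l - k).toNat
            · rw [if_pos hm]; split_ifs <;> norm_num
            · rw [if_neg hm, if_neg (fun h => hm (by omega))]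
        _ ≤ 1 := by
            rw [Finset.sum_ite_eq']
            split_ifs <;> norm_num
    linarith
  set S : ℝ := ∑ k ∈ Finset.range N, ∑ m ∈ Finset.range N, g k m with hS
  have S0 : 0 ≤ S := Finset.sum_nonneg fun k _ => Finset.sum_nonneg fun m _ => g0 k m
  have S1 : S ≤ 2 * N := by
    calc S ≤ ∑ k ∈ Finset.range N, (2 : ℝ) := Finset.sum_le_sum fun k _ => row k
      _ = 2 * N := by simp; ring
  refine ⟨S / N ^ 2, by positivity, ?_, ?_⟩
  · rw [div_le_div_iff₀ (by positivity) hNr]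
    nlinarith
  · have sumN : Null (fun n => ∑ k ∈ Finset.range N, ∑ m ∈ Finset.range N,
        ((∫ z, (φ z : ℂ) * (bb w j k n z * (starRingEnd ℂ) (bb w l m n z))) -
        D4 w φ (2 * (j - l)) 0 0 0 n - (g k m : ℂ) * J)) := by
      have h1 := tendsto_finsetSum (Finset.range N) (fun k (_ : k ∈ Finset.range N) =>
        tendsto_finsetSum (Finset.range N) (fun m (_ : m ∈ Finset.range N) =>
          ipbb H hφ j (k : ℤ) l (m : ℤ)))
      simp only [Finset.sum_const_zero] at h1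
      refine h1.congr fun n => ?_
      refine Finset.sum_congr rfl fun k _ => Finset.sum_congr rfl fun m _ => ?_
      have gc : ((g k m : ℝ) : ℂ) = (if (k : ℤ) = m ∧ j = l then 1 else 0) +
          (if (k : ℤ) + m = l ∧ j = l then 1 else 0) := by
        simp only [hg]; split_ifs <;> norm_num
      rw [gc]
    have h2 := Pool.Agent.Y265.RW.Null.cmul sumN (((N : ℂ) ^ 2)⁻¹)
    refine Tendsto.congr (fun n => ?_) h2
    have ib : ∀ k m : ℤ, Integrable (fun z => (φ z : ℂ) * (bb w j k n z *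
        (starRingEnd ℂ) (bb w l m n z))) := fun k m =>
      TF.cint hφ ((bb_co H j k n).mul (continuous_conj.comp_continuousOn (bb_co H l m n)))
    have e1 : ∫ z, (φ z : ℂ) * (TT w N j n z * (starRingEnd ℂ) (TT w N l n z)) =
        ((N : ℂ) ^ 2)⁻¹ * ∑ k ∈ Finset.range N, ∑ m ∈ Finset.range N,
        ∫ z, (φ z : ℂ) * (bb w j k n z * (starRingEnd ℂ) (bb w l m n z)) := by
      have e2 : ∀ k ∈ Finset.range N, ∑ m ∈ Finset.range N,
          ∫ z, (φ z : ℂ) * (bb w j k n z * (starRingEnd ℂ) (bb w l m n z)) =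
          ∫ z, ∑ m ∈ Finset.range N, (φ z : ℂ) * (bb w j k n z *
            (starRingEnd ℂ) (bb w l m n z)) := fun k _ =>
        (integral_finsetSum (Finset.range N) (f := fun (m : ℕ) z => (φ z : ℂ) * (bb w j k n z *
            (starRingEnd ℂ) (bb w l m n z))) fun m _ => ib k m).symm
      have e2' : ∑ k ∈ Finset.range N, ∫ z, ∑ m ∈ Finset.range N, (φ z : ℂ) * (bb w j k n z *
            (starRingEnd ℂ) (bb w l m n z)) = ∫ z, ∑ k ∈ Finset.range N, ∑ m ∈ Finset.range N,
            (φ z : ℂ) * (bb w j k n z * (starRingEnd ℂ) (bb w l m n z)) :=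
        (integral_finsetSum (Finset.range N) (f := fun (k : ℕ) z => ∑ m ∈ Finset.range N,
          (φ z : ℂ) * (bb w j k n z * (starRingEnd ℂ) (bb w l m n z)))
          fun k _ => integrable_finsetSum _ fun m _ => ib k m).symm
      rw [Finset.sum_congr rfl e2, e2', ← integral_const_mul]
      congr 1; funext z
      simp only [TT]
      rw [map_mul, map_inv₀, map_natCast, map_sum]
      have e3 : (∑ k ∈ Finset.range N, bb w j k n z) * (∑ m ∈ Finset.range N,
          (starRingEnd ℂ) (bb w l m n z)) = ∑ k ∈ Finset.range N, ∑ m ∈ Finset.range N,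
          bb w j k n z * (starRingEnd ℂ) (bb w l m n z) := Finset.sum_mul_sum _ _ _ _
      have e4 : ∑ k ∈ Finset.range N, ∑ m ∈ Finset.range N, (φ z : ℂ) * (bb w j k n z *
          (starRingEnd ℂ) (bb w l m n z)) = (φ z : ℂ) * ∑ k ∈ Finset.range N,
          ∑ m ∈ Finset.range N, bb w j k n z * (starRingEnd ℂ) (bb w l m n z) := by
        rw [Finset.mul_sum]
        refine Finset.sum_congr rfl fun k _ => ?_
        rw [Finset.mul_sum]
      rw [e4, ← e3]
      field_simp
    rw [e1]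
    have e5 : ∑ k ∈ Finset.range N, ∑ m ∈ Finset.range N,
        ((∫ z, (φ z : ℂ) * (bb w j k n z * (starRingEnd ℂ) (bb w l m n z))) -
        D4 w φ (2 * (j - l)) 0 0 0 n - (g k m : ℂ) * J) =
        (∑ k ∈ Finset.range N, ∑ m ∈ Finset.range N,
        ∫ z, (φ z : ℂ) * (bb w j k n z * (starRingEnd ℂ) (bb w l m n z))) -
        (N : ℂ) ^ 2 * D4 w φ (2 * (j - l)) 0 0 0 n - (S : ℂ) * J := by
      simp only [Finset.sum_sub_distrib, Finset.sum_const, Finset.card_range, nsmul_eq_mul]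
      have e6 : ∑ k ∈ Finset.range N, ∑ m ∈ Finset.range N, (g k m : ℂ) * J = (S : ℂ) * J := by
        rw [hS]
        push_cast
        rw [Finset.sum_mul]
        refine Finset.sum_congr rfl fun k _ => ?_
        rw [Finset.sum_mul]
      rw [e6]; ring
    rw [e5]
    push_cast
    field_simp

/-- the even moments are controlled by the excess -/
theorem evenC (H : FR B w) {φ : ℂ → ℝ}
    (hφ : TF B φ) (hφ0 : ∀ z, 0 ≤ φ z) (j : ℤ) {ε : ℝ} (hε : 0 < ε) :
    ∀ᶠ n in atTop, ‖D4 w φ (2 * j) 0 0 0 n‖ ≤ (D4 w φ 0 0 0 0 n).re + ε := by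
  set I : ℝ := ∫ z, φ z with hI
  have I0 : 0 ≤ I := integral_nonneg hφ0
  obtain ⟨N, hN⟩ := exists_nat_gt (8 * I / ε)
  have hN0 : 0 < N := by
    have : (0 : ℝ) < N := lt_of_le_of_lt (by positivity) hN
    exact_mod_cast this
  have hNr : (0 : ℝ) < N := by exact_mod_cast hN0
  have hb : 2 / (N : ℝ) * I ≤ ε / 4 := by
    rw [div_lt_iff₀ hε] at hN
    rw [div_mul_eq_mul_div, div_le_iff₀ hNr]
    linarith
  obtain ⟨θ1, t10, t11, n1⟩ := ipTT H hφ hN0 0 (-j)
  obtain ⟨θ2, t20, t21, n2⟩ := ipTT H hφ hN0 0 0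
  obtain ⟨θ3, t30, t31, n3⟩ := ipTT H hφ hN0 (-j) (-j)
  have small : ∀ {s : ℕ → ℂ}, Null s → ∀ᶠ n in atTop, ‖s n‖ ≤ ε / 4 := fun {s} hs => by
    have := hs.norm
    rw [norm_zero] at this
    filter_upwards [this.eventually (gt_mem_nhds (show (0:ℝ) < ε / 4 by positivity))] with n hn
    exact hn.le
  filter_upwards [small n1, small n2, small n3] with n h1 h2 h3
  rw [show 2 * ((0 : ℤ) - -j) = 2 * j by ring] at h1
  rw [show 2 * ((0 : ℤ) - 0) = 0 by ring] at h2
  rw [show 2 * (-j - -j) = 0 by ring] at h3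
  have am := amgm hφ hφ0 (TT_co H N 0 n) (TT_co H N (-j) n)
  set A := ∫ z, (φ z : ℂ) * (TT w N 0 n z * (starRingEnd ℂ) (TT w N (-j) n z))
  set A0 := ∫ z, (φ z : ℂ) * (TT w N 0 n z * (starRingEnd ℂ) (TT w N 0 n z))
  set A1 := ∫ z, (φ z : ℂ) * (TT w N (-j) n z * (starRingEnd ℂ) (TT w N (-j) n z))
  have k1 : ‖D4 w φ (2 * j) 0 0 0 n‖ ≤ ‖A‖ + θ1 * I + ε / 4 := by
    have e : D4 w φ (2 * j) 0 0 0 n = A - (θ1 : ℂ) * (I : ℂ) -
        (A - D4 w φ (2 * j) 0 0 0 n - (θ1 : ℂ) * (I : ℂ)) := by ring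
    have e2 : ‖(θ1 : ℂ) * (I : ℂ)‖ = θ1 * I := by
      rw [norm_mul, Complex.norm_real, Complex.norm_real, Real.norm_eq_abs, Real.norm_eq_abs,
        abs_of_nonneg t10, abs_of_nonneg I0]
    have e3 := norm_sub_le (A - (θ1 : ℂ) * (I : ℂ))
      (A - D4 w φ (2 * j) 0 0 0 n - (θ1 : ℂ) * (I : ℂ))
    have e4 := norm_sub_le A ((θ1 : ℂ) * (I : ℂ))
    rw [← e] at e3
    rw [e2] at e4
    linarith
  have re_le : ∀ (X : ℂ) (θ : ℝ), ‖X - D4 w φ 0 0 0 0 n - (θ : ℂ) * (I : ℂ)‖ ≤ ε / 4 →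
      X.re ≤ (D4 w φ 0 0 0 0 n).re + θ * I + ε / 4 := by
    intro X θ hX
    have h4 := (Complex.abs_re_le_norm _).trans hX
    rw [sub_re, sub_re, ← Complex.ofReal_mul, Complex.ofReal_re] at h4
    have h5 := (abs_le.1 h4).2
    linarith
  have k2 := re_le A0 θ2 h2
  have k3 := re_le A1 θ3 h3
  have b1 : θ1 * I ≤ ε / 4 := (mul_le_mul_of_nonneg_right t11 I0).trans hb
  have b2 : θ2 * I ≤ ε / 4 := (mul_le_mul_of_nonneg_right t21 I0).trans hb
  have b3 : θ3 * I ≤ ε / 4 := (mul_le_mul_of_nonneg_right t31 I0).trans hb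
  linarith

/-- **all fourth moments are controlled by the excess** -/
theorem excess (H : FR B w) {φ : ℂ → ℝ}
    (hφ : TF B φ) (hφ0 : ∀ z, 0 ≤ φ z) (a b c d : ℤ) {ε : ℝ} (hε : 0 < ε) :
    ∀ᶠ n in atTop, ‖D4 w φ a b c d n‖ ≤ (D4 w φ 0 0 0 0 n).re + ε := by
  have DD := H.dd φ hφ
  rcases Int.even_or_odd' (a + b + c + d) with ⟨j, hj | hj⟩
  · have n1 := (DD.even a b c d j hj).norm
    rw [norm_zero] at n1
    filter_upwards [evenC H hφ hφ0 j (half_pos hε),
      n1.eventually (gt_mem_nhds (half_pos hε))] with n h1 h2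
    have e : D4 w φ a b c d n = (D4 w φ a b c d n - eps a b c d * D4 w φ (2 * j) 0 0 0 n) +
      eps a b c d * D4 w φ (2 * j) 0 0 0 n := by ring
    rw [e]
    refine (norm_add_le _ _).trans ?_
    rw [norm_mul]
    have h3 : ‖eps a b c d‖ * ‖D4 w φ (2 * j) 0 0 0 n‖ ≤ 1 * ‖D4 w φ (2 * j) 0 0 0 n‖ := by
      gcongr
      exact norm_eps4 a b c d
    linarith
  · have n1 := (DD.odd a b c d j hj).norm
    rw [norm_zero] at n1
    filter_upwards [evenC H hφ hφ0 0 (half_pos hε),
      n1.eventually (gt_mem_nhds (half_pos hε))] with n h1 h2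
    have h3 := (norm_nonneg _).trans h1
    linarith

end

end Pool.Agent.Y265.FX
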