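import Pool.Agent.Y265.FL.A
import Pool.Agent.Y265.FL.X

/-! Fourth order relations for quantum ergodic sequences in the plane. -/
set_option autoImplicit false
open MeasureTheory Filter Topology Complex Set
open scoped ContDiff Real Manifold

namespace Pool.Agent.Y265.FL

open Pool.Agent.W745.RW Pool.Agent.TH294.RS Pool.Agent.Y265.HY
open Pool.Agent.Y265.RW (cutoff int_mulr WW famW pairW Fam Pair Unit2 Unit2.of_pair L2b L2b.all
  L2b_base null_lim)

noncomputable section

variable {B : Set ℂ} {h : ℕ → ℝ}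

/-- quartic errors vanish -/
theorem hE4g (hpos : ∀ n, 0 < h n) {R f g : ℕ → ℂ → ℂ} (hR : LB B 1 R)
    (cf : ∀ n, ContinuousOn (f n) B) (cg : ∀ n, ContinuousOn (g n) B)
    (hf : ∀ K : Set ℂ, IsCompact K → K ⊆ B → ∀ ε : ℝ, 0 < ε →
      ∀ᶠ n in atTop, ∀ z ∈ K, h n * ‖f n z‖ ^ 2 ≤ ε)
    (hg : ∀ K : Set ℂ, IsCompact K → K ⊆ B → ∀ ε : ℝ, 0 < ε →
      ∀ᶠ n in atTop, ∀ z ∈ K, h n * ‖g n z‖ ^ 2 ≤ ε) :
    WN B (fun n z => (h n : ℂ) * (R n z * (f n z * g n z))) := by
  refine ⟨fun n => continuousOn_const.mul ((hR.co n).mul ((cf n).mul (cg n))), fun φ hφ => ?_⟩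
  have hK : IsCompact (tsupport φ) := hφ.2.1
  obtain ⟨C, hC⟩ := l1b_of hR (tsupport φ) hK hφ.2.2
  obtain ⟨M', hM'⟩ := hK.exists_bound_of_continuousOn hφ.1.continuous.continuousOn
  set M := max M' 0 with hM
  have hM0 : 0 ≤ M := le_max_right _ _
  have hb : ∀ z ∈ tsupport φ, ‖φ z‖ ≤ M := fun z hz => (hM' z hz).trans (le_max_left _ _)
  show Tendsto _ atTop (𝓝 0)
  rw [Metric.tendsto_atTop']
  intro ε hε
  have hpe : 0 < ε / (2 * (M * (|C| + 1) + 1)) := by positivity
  have := ((hf _ hK hφ.2.2 _ hpe).and (hg _ hK hφ.2.2 _ hpe)).and hC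
  rw [eventually_atTop] at this
  obtain ⟨N, hN⟩ := this
  refine ⟨N, fun n hn => ?_⟩
  obtain ⟨⟨h1, h1'⟩, h2⟩ := hN n hn.le
  rw [dist_zero_right]
  set η := ε / (2 * (M * (|C| + 1) + 1)) with hη
  have ip : IntegrableOn (fun z => ‖R n z‖) (tsupport φ) :=
    ContinuousOn.integrableOn_compact hK (((hR.co n).mono hφ.2.2).norm)
  have e : ∫ z, (φ z : ℂ) * ((h n : ℂ) * (R n z * (f n z * g n z))) =
      ∫ z in tsupport φ, (φ z : ℂ) * ((h n : ℂ) * (R n z * (f n z * g n z))) := by
    refine (setIntegral_eq_integral_of_forall_compl_eq_zero (fun z hz => ?_)).symm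
    rw [image_eq_zero_of_notMem_tsupport hz]; simp
  rw [e]
  have bb : ‖∫ z in tsupport φ, (φ z : ℂ) * ((h n : ℂ) * (R n z * (f n z * g n z)))‖ ≤
      ∫ z in tsupport φ, (M * η) * ‖R n z‖ := by
    refine norm_integral_le_of_norm_le (ip.const_mul _) ?_
    refine (ae_restrict_iff' hK.measurableSet).2 (Eventually.of_forall fun z hz => ?_)
    have hp := (hpos n).le
    rw [norm_mul, norm_mul, norm_mul (R n z), norm_mul (f n z), Complex.norm_real,
      Complex.norm_real, Real.norm_eq_abs (h n), abs_of_nonneg hp]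
    have a1 := hb z hz
    have a2 := h1 z hz
    have a3 := h1' z hz
    have a4 : h n * (‖f n z‖ * ‖g n z‖) ≤ η := by
      have : ‖f n z‖ * ‖g n z‖ ≤ (‖f n z‖ ^ 2 + ‖g n z‖ ^ 2) / 2 := by
        nlinarith [sq_nonneg (‖f n z‖ - ‖g n z‖)]
      calc h n * (‖f n z‖ * ‖g n z‖) ≤ h n * ((‖f n z‖ ^ 2 + ‖g n z‖ ^ 2) / 2) := by gcongr
        _ ≤ η := by linarith
    calc ‖φ z‖ * (h n * (‖R n z‖ * (‖f n z‖ * ‖g n z‖))) =
          ‖φ z‖ * (h n * (‖f n z‖ * ‖g n z‖)) * ‖R n z‖ := by ring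
      _ ≤ M * η * ‖R n z‖ := by gcongr
  refine bb.trans_lt ?_
  rw [integral_const_mul]
  have hC' : ∫ z in tsupport φ, ‖R n z‖ ≤ |C| + 1 := h2.trans (by linarith [le_abs_self C])
  calc M * η * ∫ z in tsupport φ, ‖R n z‖
      ≤ M * η * (|C| + 1) := by gcongr
    _ = (M * (|C| + 1)) / (M * (|C| + 1) + 1) * (ε / 2) := by
        rw [hη]; field_simp
    _ ≤ 1 * (ε / 2) := by
        gcongr
        rw [div_le_one (by positivity)]; linarith
    _ < ε := by linarith

/-- all `W k` solve the equation -/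
lemma lapW (hB : IsOpen B) (hpos : ∀ n, 0 < h n) {u : ℕ → ℂ → ℝ} (hF : Fam B h (WW h u)) (k : ℤ)
    (n : ℕ) {z : ℂ} (hz : z ∈ B) :
    (h n : ℂ) ^ 2 * lap (WW h u n k) z = - WW h u n k z := by
  have sk := hF.smooth n k
  have hh : (h n : ℂ) ≠ 0 := by exact_mod_cast (hpos n).ne'
  have e1 : dd (db (WW h u n k)) z = lap (WW h u n k) z := dd_db hB sk hz
  have e2 : ∀ w ∈ B, db (WW h u n k) w = -(h n : ℂ)⁻¹ * WW h u n (k - 1) w := fun w hw => by
    have := hF.dm n k w hw
    simp only [Dm] at this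
    simp only [db]
    field_simp
    linear_combination this
  have e3 := hF.dp n (k - 1) z hz
  rw [sub_add_cancel] at e3
  simp only [Dp] at e3
  rw [← e1, dd_cg hB e2 hz, dd_cm (fda hB (hF.smooth n (k - 1)) hz)]
  simp only [dd]
  field_simp
  linear_combination -e3

/-- two point limits -/
lemma twoW (hB : IsOpen B) {u : ℕ → ℂ → ℝ} (hS : Sys B h u) (i j : ℤ) :
    WN B (fun n z => WW h u n i z * WW h u n j z - CC i j) := by
  have hF := famW hB hS
  have co : ∀ n k, ContinuousOn (WW h u n k) B := fun n k => (hF.smooth n k).continuousOn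
  refine ⟨fun n => ((co n i).mul (co n j)).sub continuousOn_const, fun φ hφ => ?_⟩
  have h1 := (pairW hB hS φ hφ i j).sub_const (CC i j * ((∫ z, φ z : ℝ) : ℂ))
  rw [sub_self] at h1
  refine h1.congr fun n => ?_
  have IJ : Integrable (fun z => (φ z : ℂ)) :=
    (hφ.1.continuous.integrable_of_hasCompactSupport hφ.2.1).ofReal
  have i1 : Integrable (fun z => (φ z : ℂ) * (WW h u n i z * WW h u n j z)) :=
    TF.cint hφ ((co n i).mul (co n j))
  have e : CC i j * ((∫ z, φ z : ℝ) : ℂ) = ∫ z, (φ z : ℂ) * CC i j := by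
    rw [integral_mul_const, integral_complex_ofReal, mul_comm]
  rw [e, ← integral_sub i1 (IJ.mul_const _)]
  congr 1; funext z; ring

lemma lb2 (hB : IsOpen B) {u : ℕ → ℂ → ℝ} (hS : Sys B h u) (k : ℤ) :
    LB B 2 (fun n => WW h u n k) :=
  ⟨fun n => (famW hB hS).smooth n k,
    L2b.all hB (fun n => (hS.sol n).hpos) hS.hlim (famW hB hS) (L2b_base hB hS) k⟩

lemma supW (hB : IsOpen B) {u : ℕ → ℂ → ℝ} (hS : Sys B h u) (k : ℤ) {K : Set ℂ} (hK : IsCompact K)
    (hKB : K ⊆ B) {ε : ℝ} (hε : 0 < ε) :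
    ∀ᶠ n in atTop, ∀ z ∈ K, h n * ‖WW h u n k z‖ ^ 2 ≤ ε := by
  have hF := famW hB hS
  have hpos : ∀ n, 0 < h n := fun n => (hS.sol n).hpos
  exact sup_flat hB hpos hS.hlim (f := fun n => WW h u n k) (fun n => hF.smooth n k)
    (fun n z hz => lapW hB hpos hF k n hz)
    (fun φ hφ => Unit2.of_pair hF (pairW hB hS) φ hφ k) hK hKB hε

/-- quartic errors of the ladder vanish -/
lemma w4 (hB : IsOpen B) {u : ℕ → ℂ → ℝ} (hS : Sys B h u) (i j k l : ℤ) :
    WN B (fun n z => (h n : ℂ) *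
      (WW h u n i z * WW h u n j z * (WW h u n k z * WW h u n l z))) := by
  have hF := famW hB hS
  exact hE4g (fun n => (hS.sol n).hpos) (LB.mul2 (lb2 hB hS i) (lb2 hB hS j))
    (f := fun n => WW h u n k) (g := fun n => WW h u n l)
    (fun n => (hF.smooth n k).continuousOn) (fun n => (hF.smooth n l).continuousOn)
    (fun K hK hKB ε hε => supW hB hS k hK hKB hε) (fun K hK hKB ε hε => supW hB hS l hK hKB hε)

lemma quadW (hB : IsOpen B) {u : ℕ → ℂ → ℝ} (hS : Sys B h u) (i j k l : ℤ) :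
    WN B (fun n z => (h n : ℂ) * dd (fun z => WW h u n i z * WW h u n j z *
      (WW h u n k z * WW h u n l z)) z) ∧
    WN B (fun n z => (h n : ℂ) * db (fun z => WW h u n i z * WW h u n j z *
      (WW h u n k z * WW h u n l z)) z) := by
  have hF := famW hB hS
  have hs : ∀ n, ContDiffOn ℝ ∞ (fun z => WW h u n i z * WW h u n j z *
      (WW h u n k z * WW h u n l z)) B := fun n =>
    ((hF.smooth n i).mul (hF.smooth n j)).mul ((hF.smooth n k).mul (hF.smooth n l))
  have w0 := w4 hB hS i j k l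
  have h1 := parts' hB (a := fun _ => 1) (G := fun n z => WW h u n i z * WW h u n j z *
      (WW h u n k z * WW h u n l z)) hs w0 contDiffOn_const 1
  have h2 := (parts' hB (a := fun _ => 1) (G := fun n z => WW h u n i z * WW h u n j z *
      (WW h u n k z * WW h u n l z)) hs w0 contDiffOn_const I).cmul I
  exact ⟨(h1.sub h2).congr fun n z _ => by simp only [dd, dx, dy, Complex.ofReal_one]; ring,
    (h1.add h2).congr fun n z _ => by simp only [db, dx, dy, Complex.ofReal_one]; ring⟩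

lemma trP (hB : IsOpen B) {u : ℕ → ℂ → ℝ} (hS : Sys B h u) (i j k l : ℤ) :
    WN B (fun n z => WW h u n (i + 1) z * WW h u n j z * WW h u n k z * WW h u n l z +
      WW h u n i z * WW h u n (j + 1) z * WW h u n k z * WW h u n l z +
      WW h u n i z * WW h u n j z * WW h u n (k + 1) z * WW h u n l z +
      WW h u n i z * WW h u n j z * WW h u n k z * WW h u n (l + 1) z) := by
  have hF := famW hB hS
  refine (quadW hB hS i j k l).1.congr fun n z hz => ?_
  have c1 := hF.dp n i z hz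
  have c2 := hF.dp n j z hz
  have c3 := hF.dp n k z hz
  have c4 := hF.dp n l z hz
  have d1 := da hB (hF.smooth n i) hz
  have d2 := da hB (hF.smooth n j) hz
  have d3 := da hB (hF.smooth n k) hz
  have d4 := da hB (hF.smooth n l) hz
  simp only [Dp] at c1 c2 c3 c4
  rw [dd_mul (f := fun z => WW h u n i z * WW h u n j z)
    (g := fun z => WW h u n k z * WW h u n l z) (d1.mul d2) (d3.mul d4), dd_mul d1 d2, dd_mul d3 d4]
  simp only [dd]
  linear_combination (-(WW h u n j z * WW h u n k z * WW h u n l z)) * c1 -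
    (WW h u n i z * WW h u n k z * WW h u n l z) * c2
    - (WW h u n i z * WW h u n j z * WW h u n l z) * c3 -
    (WW h u n i z * WW h u n j z * WW h u n k z) * c4

lemma trM (hB : IsOpen B) {u : ℕ → ℂ → ℝ} (hS : Sys B h u) (i j k l : ℤ) :
    WN B (fun n z => WW h u n (i - 1) z * WW h u n j z * WW h u n k z * WW h u n l z +
      WW h u n i z * WW h u n (j - 1) z * WW h u n k z * WW h u n l z +
      WW h u n i z * WW h u n j z * WW h u n (k - 1) z * WW h u n l z +
      WW h u n i z * WW h u n j z * WW h u n k z * WW h u n (l - 1) z) := by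
  have hF := famW hB hS
  refine (quadW hB hS i j k l).2.neg.congr fun n z hz => ?_
  have c1 := hF.dm n i z hz
  have c2 := hF.dm n j z hz
  have c3 := hF.dm n k z hz
  have c4 := hF.dm n l z hz
  have d1 := da hB (hF.smooth n i) hz
  have d2 := da hB (hF.smooth n j) hz
  have d3 := da hB (hF.smooth n k) hz
  have d4 := da hB (hF.smooth n l) hz
  simp only [Dm] at c1 c2 c3 c4
  rw [db_mul (f := fun z => WW h u n i z * WW h u n j z)
    (g := fun z => WW h u n k z * WW h u n l z) (d1.mul d2) (d3.mul d4), db_mul d1 d2, db_mul d3 d4]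
  simp only [db]
  linear_combination ((WW h u n j z * WW h u n k z * WW h u n l z)) * c1 +
    (WW h u n i z * WW h u n k z * WW h u n l z) * c2
    + (WW h u n i z * WW h u n j z * WW h u n l z) * c3 +
    (WW h u n i z * WW h u n j z * WW h u n k z) * c4

/-- the null forms of the ladder -/
lemma nW (hB : IsOpen B) {u : ℕ → ℂ → ℝ} (hS : Sys B h u) (a b c d : ℤ) :
    WN B (fun n z => WW h u n (a + 1) z * WW h u n (b + 1) z * WW h u n (c - 1) z *
      WW h u n (d - 1) z +
      WW h u n (a - 1) z * WW h u n (b - 1) z * WW h u n (c + 1) z * WW h u n (d + 1) z -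
      2 * (WW h u n a z * WW h u n b z * WW h u n c z * WW h u n d z) -
      (CC (a + 1) (b + 1) * CC (c - 1) (d - 1) + CC (a - 1) (b - 1) * CC (c + 1) (d + 1) -
        2 * CC a b * CC c d)) := by
  have hF := famW hB hS
  have hu := Unit2.of_pair hF (pairW hB hS)
  have hp := pairW hB hS
  have co : ∀ n k, ContinuousOn (WW h u n k) B := fun n k => (hF.smooth n k).continuousOn
  have co4 : ∀ n i j k l, ContinuousOn (fun z => WW h u n i z * WW h u n j z * WW h u n k z *
    WW h u n l z) B := fun n i j k l => (((co n i).mul (co n j)).mul (co n k)).mul (co n l)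
  have cE : ∀ n, ContinuousOn (fun z => WW h u n (a + 1) z * WW h u n (b + 1) z *
      WW h u n (c - 1) z * WW h u n (d - 1) z +
      WW h u n (a - 1) z * WW h u n (b - 1) z * WW h u n (c + 1) z * WW h u n (d + 1) z -
      2 * (WW h u n a z * WW h u n b z * WW h u n c z * WW h u n d z)) B := fun n =>
    ((co4 n _ _ _ _).add (co4 n _ _ _ _)).sub (continuousOn_const.mul (co4 n _ _ _ _))
  refine ⟨fun n => (cE n).sub continuousOn_const, fun φ hφ => ?_⟩
  have key := null_lim hB (fun n => (hS.sol n).hpos.ne') hF hF hF hF hu hu hu hu hp hp hφ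
    (a - 1) (b - 1) (c - 1) (d - 1)
  have f1 : ∀ x : ℤ, x - 1 + 1 = x := fun x => by ring
  have f2 : ∀ x : ℤ, x - 1 + 2 = x + 1 := fun x => by ring
  simp only [f1, f2] at key
  have k2 := key.sub_const ((CC (a + 1) (b + 1) * CC (c - 1) (d - 1) - 2 * CC a b * CC c d +
    CC (a - 1) (b - 1) * CC (c + 1) (d + 1)) * ((∫ z, φ z : ℝ) : ℂ))
  rw [sub_self] at k2
  refine k2.congr fun n => ?_
  have IJ : Integrable (fun z => (φ z : ℂ)) :=
    (hφ.1.continuous.integrable_of_hasCompactSupport hφ.2.1).ofReal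
  have e : (CC (a + 1) (b + 1) * CC (c - 1) (d - 1) - 2 * CC a b * CC c d +
    CC (a - 1) (b - 1) * CC (c + 1) (d + 1)) * ((∫ z, φ z : ℝ) : ℂ) =
    ∫ z, (φ z : ℂ) * (CC (a + 1) (b + 1) * CC (c - 1) (d - 1) - 2 * CC a b * CC c d +
    CC (a - 1) (b - 1) * CC (c + 1) (d + 1)) := by
    rw [integral_mul_const, integral_complex_ofReal, mul_comm]
  have e2 : ∫ z, (φ z : ℂ) * (WW h u n (a + 1) z * WW h u n (b + 1) z *
      (WW h u n (c - 1) z * WW h u n (d - 1) z) -
      2 * (WW h u n a z * WW h u n b z) * (WW h u n c z * WW h u n d z) +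
      WW h u n (a - 1) z * WW h u n (b - 1) z * (WW h u n (c + 1) z * WW h u n (d + 1) z)) =
      ∫ z, (φ z : ℂ) * (WW h u n (a + 1) z * WW h u n (b + 1) z *
      WW h u n (c - 1) z * WW h u n (d - 1) z +
      WW h u n (a - 1) z * WW h u n (b - 1) z * WW h u n (c + 1) z * WW h u n (d + 1) z -
      2 * (WW h u n a z * WW h u n b z * WW h u n c z * WW h u n d z)) := by
    congr 1; funext z; ring
  rw [e, e2, ← integral_sub (TF.cint hφ (cE n)) (IJ.mul_const _)]
  congr 1; funext z; ring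

/-- the ladder of a quantum ergodic sequence -/
theorem frW (hB : IsOpen B) {u : ℕ → ℂ → ℝ} (hS : Sys B h u) :
    FX.FR B (fun k n => WW h u n k) := by
  have hF := famW hB hS
  refine ⟨fun k n => (hF.smooth n k).continuousOn, fun k n z hz => hF.cj n k z hz,
    fun i j => twoW hB hS i j, fun φ hφ => ?_⟩
  exact FX.dd_of (w := fun k n => WW h u n k) (fun k n => (hF.smooth n k).continuousOn)
    (fun i j k l => trP hB hS i j k l) (fun i j k l => trM hB hS i j k l)
    (fun a b c d => nW hB hS a b c d) hφ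

/-- local fourth moments of the ladder -/
def FM (h : ℝ) (u : ℂ → ℝ) (φ : ℂ → ℝ) (a b c d : ℤ) : ℂ :=
  ∫ z, (φ z : ℂ) * (W h u a z * W h u b z * W h u c z * W h u d z)

theorem flat_fourth (hB : IsOpen B) {u : ℕ → ℂ → ℝ} (hS : Sys B h u) {φ : ℂ → ℝ} (hφ : TF B φ) :
    (∀ a b c d j : ℤ, a + b + c + d = 2 * j + 1 →
      Tendsto (fun n => FM (h n) (u n) φ a b c d) atTop (𝓝 0)) ∧
    (∀ a b c d j : ℤ, a + b + c + d = 2 * j →
      Tendsto (fun n => FM (h n) (u n) φ a b c d - eps a b c d *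
        FM (h n) (u n) φ (2 * j) 0 0 0) atTop
      (𝓝 ((GG a b c d - eps a b c d * GG (2 * j) 0 0 0) * ((∫ z, φ z : ℝ) : ℂ)))) ∧
    ((∀ z, 0 ≤ φ z) → ∀ a b c d : ℤ, ∀ ε : ℝ, 0 < ε → ∀ᶠ n in atTop,
      ‖FM (h n) (u n) φ a b c d - GG a b c d * ((∫ z, φ z : ℝ) : ℂ)‖ ≤
        (∫ z, φ z * u n z ^ 4) - 3 * (∫ z, φ z) + ε) := by
  have H := frW hB hS
  set w : ℤ → ℕ → ℂ → ℂ := fun k n => WW h u n k with hw
  have DDr : DD (D4 w φ) := H.dd φ hφ
  set J : ℂ := ((∫ z, φ z : ℝ) : ℂ) with hJ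
  have eF : ∀ a b c d n, FM (h n) (u n) φ a b c d = D4 w φ a b c d n + GG a b c d * J := by
    intro a b c d n
    unfold D4 FM
    rw [sub_add_cancel]
    rfl
  refine ⟨fun a b c d j hs => ?_, fun a b c d j hs => ?_, fun hφ0 a b c d ε hε => ?_⟩
  · refine (DDr.odd a b c d j hs).congr fun n => ?_
    have g0 : GG a b c d = 0 := by
      unfold GG CC
      by_cases h1 : a + b = 0
      · rw [if_neg (c := c + d = 0) (by omega)]
        by_cases h2 : a + c = 0
        · rw [if_neg (c := b + d = 0) (by omega)]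
          by_cases h3 : a + d = 0
          · rw [if_neg (c := b + c = 0) (by omega)]; ring
          · rw [if_neg h3]; ring
        · rw [if_neg h2]
          by_cases h3 : a + d = 0
          · rw [if_neg (c := b + c = 0) (by omega)]; ring
          · rw [if_neg h3]; ring
      · rw [if_neg h1]
        by_cases h2 : a + c = 0
        · rw [if_neg (c := b + d = 0) (by omega)]
          by_cases h3 : a + d = 0
          · rw [if_neg (c := b + c = 0) (by omega)]; ring
          · rw [if_neg h3]; ring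
        · rw [if_neg h2]
          by_cases h3 : a + d = 0
          · rw [if_neg (c := b + c = 0) (by omega)]; ring
          · rw [if_neg h3]; ring
    rw [eF, g0]; ring
  · have h1 := (DDr.even a b c d j hs).add_const ((GG a b c d - eps a b c d * GG (2 * j) 0 0 0) * J)
    rw [zero_add] at h1
    refine h1.congr fun n => ?_
    rw [eF, eF]; ring
  · filter_upwards [FX.excess H hφ hφ0 a b c d hε] with n hn
    have e1 : FM (h n) (u n) φ a b c d - GG a b c d * J = D4 w φ a b c d n := by rw [eF]; ring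
    have e2 : (D4 w φ 0 0 0 0 n).re = (∫ z, φ z * u n z ^ 4) - 3 * (∫ z, φ z) := by
      have h0 : GG 0 0 0 0 = 3 := by simp [GG, CC]; norm_num
      unfold D4
      rw [h0]
      have h4 : ∫ z, (φ z : ℂ) * F4 w 0 0 0 0 n z = ((∫ z, φ z * u n z ^ 4 : ℝ) : ℂ) := by
        rw [← integral_complex_ofReal]
        congr 1; funext z
        have : w 0 n z = (u n z : ℂ) := rfl
        simp only [F4, this]
        push_cast; ring
      rw [h4, sub_re, Complex.ofReal_re]
      congr 1
      rw [show (3 : ℂ) = ((3 : ℝ) : ℂ) by norm_num, ← Complex.ofReal_mul, Complex.ofReal_re]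
    rw [e1, ← e2]
    exact hn

end

end Pool.Agent.Y265.FL
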