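import Pool.Agent.Y265.FL.B

/-! The defect of the fourth moments is positive definite. -/
set_option autoImplicit false
open MeasureTheory Filter Topology Complex Set
open scoped ContDiff Real Manifold Matrix ComplexOrder

namespace Pool.Agent.Y265.FX

open Pool.Agent.W745.RW Pool.Agent.TH294.RS Pool.Agent.Y265.HY

noncomputable section

variable {B : Set ℂ} {w : ℤ → ℕ → ℂ → ℂ}

/-- Gram matrices are positive -/
lemma gram (H : FR B w) {φ : ℂ → ℝ} (hφ : TF B φ) (hφ0 : ∀ z, 0 ≤ φ z) (N K : ℕ)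
    (c : Fin K → ℂ) (n : ℕ) :
    0 ≤ (∑ j : Fin K, ∑ l : Fin K, c j * (starRingEnd ℂ) (c l) *
      ∫ z, (φ z : ℂ) * (TT w N (j : ℤ) n z * (starRingEnd ℂ) (TT w N (l : ℤ) n z))).re := by
  have cT : ∀ j : Fin K, ContinuousOn (TT w N (j : ℤ) n) B := fun j => TT_co H N j n
  have ii : ∀ j l : Fin K, Integrable (fun z => (φ z : ℂ) *
      (TT w N (j : ℤ) n z * (starRingEnd ℂ) (TT w N (l : ℤ) n z))) := fun j l =>
    TF.cint hφ ((cT j).mul (continuous_conj.comp_continuousOn (cT l)))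
  have e : ∑ j : Fin K, ∑ l : Fin K, c j * (starRingEnd ℂ) (c l) *
      ∫ z, (φ z : ℂ) * (TT w N (j : ℤ) n z * (starRingEnd ℂ) (TT w N (l : ℤ) n z)) =
      ((∫ z, φ z * ‖∑ j : Fin K, c j * TT w N (j : ℤ) n z‖ ^ 2 : ℝ) : ℂ) := by
    have e1 : ∀ j : Fin K, ∑ l : Fin K, c j * (starRingEnd ℂ) (c l) *
        (∫ z, (φ z : ℂ) * (TT w N (j : ℤ) n z * (starRingEnd ℂ) (TT w N (l : ℤ) n z))) =
        ∫ z, ∑ l : Fin K, c j * (starRingEnd ℂ) (c l) *
          ((φ z : ℂ) * (TT w N (j : ℤ) n z * (starRingEnd ℂ) (TT w N (l : ℤ) n z))) := by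
      intro j
      rw [integral_finsetSum _ fun l _ => (ii j l).const_mul _]
      refine Finset.sum_congr rfl fun l _ => ?_
      rw [integral_const_mul]
    simp only [e1]
    rw [← integral_finsetSum _ fun j _ => integrable_finsetSum _ fun l _ => (ii j l).const_mul _,
      ← integral_complex_ofReal]
    congr 1; funext z
    have e2 : ((‖∑ j : Fin K, c j * TT w N (j : ℤ) n z‖ ^ 2 : ℝ) : ℂ) =
        (∑ j : Fin K, c j * TT w N (j : ℤ) n z) *
          (∑ l : Fin K, (starRingEnd ℂ) (c l) * (starRingEnd ℂ) (TT w N (l : ℤ) n z)) := by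
      rw [← Complex.normSq_eq_norm_sq, ← Complex.mul_conj, map_sum]
      simp only [map_mul]
    have e3 : ((φ z * ‖∑ j : Fin K, c j * TT w N (j : ℤ) n z‖ ^ 2 : ℝ) : ℂ) =
        (φ z : ℂ) * ((‖∑ j : Fin K, c j * TT w N (j : ℤ) n z‖ ^ 2 : ℝ) : ℂ) := by push_cast; ring
    rw [e3, e2, Finset.sum_mul_sum, Finset.mul_sum]
    refine Finset.sum_congr rfl fun j _ => ?_
    rw [Finset.mul_sum]
    refine Finset.sum_congr rfl fun l _ => ?_
    ring
  rw [e, Complex.ofReal_re]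
  exact integral_nonneg fun z => mul_nonneg (hφ0 z) (sq_nonneg _)

/-- the defect is asymptotically positive definite -/
theorem psd (H : FR B w) {φ : ℂ → ℝ} (hφ : TF B φ) (hφ0 : ∀ z, 0 ≤ φ z) (K : ℕ) {ε : ℝ}
    (hε : 0 < ε) : ∀ᶠ n in atTop, ∀ c : Fin K → ℂ, -(ε * ∑ j, ‖c j‖ ^ 2) ≤
      (∑ j : Fin K, ∑ l : Fin K, c j * (starRingEnd ℂ) (c l) *
        D4 w φ (2 * ((j : ℤ) - (l : ℤ))) 0 0 0 n).re := by
  set I : ℝ := ∫ z, φ z with hI
  have I0 : 0 ≤ I := integral_nonneg hφ0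
  set δ : ℝ := ε / (K + 1) with hδ
  have δ0 : 0 < δ := by positivity
  obtain ⟨N, hN⟩ := exists_nat_gt (4 * I / δ)
  have hN0 : 0 < N := by
    have : (0 : ℝ) < N := lt_of_le_of_lt (by positivity) hN
    exact_mod_cast this
  have hNr : (0 : ℝ) < N := by exact_mod_cast hN0
  have hb : 2 / (N : ℝ) * I ≤ δ / 2 := by
    rw [div_lt_iff₀ δ0] at hN
    rw [div_mul_eq_mul_div, div_le_iff₀ hNr]
    linarith
  have ent : ∀ j l : Fin K, ∀ᶠ n in atTop,
      ‖(∫ z, (φ z : ℂ) * (TT w N (j : ℤ) n z * (starRingEnd ℂ) (TT w N (l : ℤ) n z))) -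
        D4 w φ (2 * ((j : ℤ) - (l : ℤ))) 0 0 0 n‖ ≤ δ := by
    intro j l
    obtain ⟨θ, t0, t1, n1⟩ := ipTT H hφ hN0 (j : ℤ) (l : ℤ)
    have n2 := n1.norm
    rw [norm_zero] at n2
    filter_upwards [n2.eventually (gt_mem_nhds (half_pos δ0))] with n hn
    have e : (∫ z, (φ z : ℂ) * (TT w N (j : ℤ) n z * (starRingEnd ℂ) (TT w N (l : ℤ) n z))) -
        D4 w φ (2 * ((j : ℤ) - (l : ℤ))) 0 0 0 n =
        ((∫ z, (φ z : ℂ) * (TT w N (j : ℤ) n z * (starRingEnd ℂ) (TT w N (l : ℤ) n z))) -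
        D4 w φ (2 * ((j : ℤ) - (l : ℤ))) 0 0 0 n - (θ : ℂ) * (I : ℂ)) + (θ : ℂ) * (I : ℂ) := by
      ring
    rw [e]
    refine (norm_add_le _ _).trans ?_
    have e2 : ‖(θ : ℂ) * (I : ℂ)‖ = θ * I := by
      rw [norm_mul, Complex.norm_real, Complex.norm_real, Real.norm_eq_abs, Real.norm_eq_abs,
        abs_of_nonneg t0, abs_of_nonneg I0]
    have b1 : θ * I ≤ δ / 2 := (mul_le_mul_of_nonneg_right t1 I0).trans hb
    rw [e2]
    linarith
  have all : ∀ᶠ n in atTop, ∀ j l : Fin K,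
      ‖(∫ z, (φ z : ℂ) * (TT w N (j : ℤ) n z * (starRingEnd ℂ) (TT w N (l : ℤ) n z))) -
        D4 w φ (2 * ((j : ℤ) - (l : ℤ))) 0 0 0 n‖ ≤ δ := by
    rw [eventually_all]
    intro j
    rw [eventually_all]
    exact fun l => ent j l
  filter_upwards [all] with n hn c
  have g := gram H hφ hφ0 N K c n
  set A : Fin K → Fin K → ℂ := fun j l =>
    ∫ z, (φ z : ℂ) * (TT w N (j : ℤ) n z * (starRingEnd ℂ) (TT w N (l : ℤ) n z)) with hA
  set D : Fin K → Fin K → ℂ := fun j l => D4 w φ (2 * ((j : ℤ) - (l : ℤ))) 0 0 0 n with hD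
  have s1 : ∑ j : Fin K, ∑ l : Fin K, c j * (starRingEnd ℂ) (c l) * D j l =
      (∑ j : Fin K, ∑ l : Fin K, c j * (starRingEnd ℂ) (c l) * A j l) -
      ∑ j : Fin K, ∑ l : Fin K, c j * (starRingEnd ℂ) (c l) * (A j l - D j l) := by
    rw [← Finset.sum_sub_distrib]
    refine Finset.sum_congr rfl fun j _ => ?_
    rw [← Finset.sum_sub_distrib]
    refine Finset.sum_congr rfl fun l _ => ?_
    ring
  have s2 : ‖∑ j : Fin K, ∑ l : Fin K, c j * (starRingEnd ℂ) (c l) * (A j l - D j l)‖ ≤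
      ε * ∑ j, ‖c j‖ ^ 2 := by
    calc ‖∑ j : Fin K, ∑ l : Fin K, c j * (starRingEnd ℂ) (c l) * (A j l - D j l)‖
        ≤ ∑ j : Fin K, ∑ l : Fin K, (‖c j‖ ^ 2 + ‖c l‖ ^ 2) / 2 * δ := by
          refine (norm_sum_le _ _).trans (Finset.sum_le_sum fun j _ => ?_)
          refine (norm_sum_le _ _).trans (Finset.sum_le_sum fun l _ => ?_)
          rw [norm_mul, norm_mul, RCLike.norm_conj]
          have h1 : ‖c j‖ * ‖c l‖ ≤ (‖c j‖ ^ 2 + ‖c l‖ ^ 2) / 2 := by
            nlinarith [sq_nonneg (‖c j‖ - ‖c l‖)]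
          exact mul_le_mul h1 (hn j l) (norm_nonneg _) (by positivity)
      _ = (K : ℝ) * δ * ∑ j, ‖c j‖ ^ 2 := by
          have : ∀ j : Fin K, ∑ l : Fin K, (‖c j‖ ^ 2 + ‖c l‖ ^ 2) / 2 * δ =
              δ / 2 * ((K : ℝ) * ‖c j‖ ^ 2 + ∑ l, ‖c l‖ ^ 2) := by
            intro j
            rw [← Finset.sum_mul, ← Finset.sum_div, Finset.sum_add_distrib, Finset.sum_const,
              Finset.card_univ, Fintype.card_fin, nsmul_eq_mul]
            ring
          simp only [this]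
          rw [← Finset.mul_sum, Finset.sum_add_distrib, Finset.sum_const, ← Finset.mul_sum,
            Finset.card_univ, Fintype.card_fin, nsmul_eq_mul]
          ring
      _ ≤ ε * ∑ j, ‖c j‖ ^ 2 := by
          have h0 : 0 ≤ ∑ j, ‖c j‖ ^ 2 := Finset.sum_nonneg fun j _ => sq_nonneg _
          refine mul_le_mul_of_nonneg_right ?_ h0
          rw [hδ, mul_div_assoc', div_le_iff₀ (by positivity)]
          nlinarith
  have s3 := (abs_le.1 ((Complex.abs_re_le_norm _).trans s2)).2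
  show -(ε * ∑ j, ‖c j‖ ^ 2) ≤ (∑ j : Fin K, ∑ l : Fin K, c j * (starRingEnd ℂ) (c l) * D j l).re
  rw [s1, sub_re]
  have g' : 0 ≤ (∑ j : Fin K, ∑ l : Fin K, c j * (starRingEnd ℂ) (c l) * A j l).re := g
  linarith

/-- a diagonal argument -/
lemma diag {P : ℕ → ℕ → Prop} (hP : ∀ m, ∀ᶠ n in atTop, P m n) :
    ∃ m : ℕ → ℕ, Tendsto m atTop atTop ∧ ∀ᶠ n in atTop, P (m n) n := by
  have h1 : ∀ m, ∃ N, ∀ n ≥ N, P m n := fun m => eventually_atTop.1 (hP m)
  choose N hN using h1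
  set N' : ℕ → ℕ := fun m => (∑ i ∈ Finset.range (m + 1), N i) + m with hN'
  have le1 : ∀ m, N m ≤ N' m := fun m => by
    have : N m ≤ ∑ i ∈ Finset.range (m + 1), N i :=
      Finset.single_le_sum (f := N) (fun i _ => Nat.zero_le _) (Finset.self_mem_range_succ m)
    simp only [hN']; omega
  classical
  refine ⟨fun n => Nat.findGreatest (fun m => N' m ≤ n) n, ?_, ?_⟩
  · rw [tendsto_atTop]
    intro M
    filter_upwards [eventually_ge_atTop (N' M)] with n hn
    refine Nat.le_findGreatest ?_ hn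
    have : M ≤ N' M := by simp only [hN']; omega
    omega
  · filter_upwards [eventually_ge_atTop (N' 0)] with n hn
    have h2 : N' (Nat.findGreatest (fun m => N' m ≤ n) n) ≤ n :=
      Nat.findGreatest_spec (P := fun m => N' m ≤ n) (Nat.zero_le n) hn
    exact hN _ n ((le1 _).trans h2)

lemma D4_conj (H : FR B w) {φ : ℂ → ℝ} (hφ : TF B φ) (j : ℤ) (n : ℕ) :
    D4 w φ (2 * (-j)) 0 0 0 n = (starRingEnd ℂ) (D4 w φ (2 * j) 0 0 0 n) := by
  have c0 : ∀ k : ℤ, CC (2 * k) 0 = if k = 0 then 1 else 0 := by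
    intro k
    unfold CC
    by_cases hk : k = 0
    · subst hk; simp
    · rw [if_neg hk, if_neg (by omega)]
  have g1 : ∀ k : ℤ, Pool.Agent.W745.RW.GG (2 * k) 0 0 0 = if k = 0 then 3 else 0 := by
    intro k
    unfold Pool.Agent.W745.RW.GG
    rw [c0]
    have : CC 0 0 = 1 := by simp [CC]
    rw [this]
    by_cases hk : k = 0
    · simp [hk]; norm_num
    · simp [hk]
  unfold D4
  rw [g1, g1, map_sub, map_mul, Complex.conj_ofReal, ← integral_conj]
  have e1 : (if -j = 0 then (3 : ℂ) else 0) = (starRingEnd ℂ) (if j = 0 then (3 : ℂ) else 0) := by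
    by_cases hj : j = 0
    · simp only [hj, neg_zero, if_true]
      exact (Complex.conj_ofReal 3).symm
    · rw [if_neg hj, if_neg (by omega), map_zero]
  rw [e1]
  congr 2; funext z
  by_cases hz : z ∈ B
  · simp only [F4, map_mul, Complex.conj_ofReal]
    rw [H.cj _ n z hz, H.cj 0 n z hz, evn j]
    simp only [Int.natAbs_zero, pow_zero, one_mul, neg_zero]
    rw [show 2 * -j = -(2 * j) by ring]
  · rw [TF.zero hφ hz]; simp

/-- **structure of the fourth moments** -/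
theorem structure4 (H : FR B w) {φ : ℂ → ℝ} (hφ : TF B φ) (hφ0 : ∀ z, 0 ≤ φ z) :
    ∃ δ : ℕ → ℤ → ℂ,
      (∀ K : ℕ, ∀ᶠ n in atTop,
        (Matrix.of fun j l : Fin K => δ n ((j : ℤ) - (l : ℤ))).PosSemidef) ∧
      (∀ a b c d j : ℤ, a + b + c + d = 2 * j →
        Tendsto (fun n => D4 w φ a b c d n - eps a b c d * δ n j) atTop (𝓝 0)) := by
  set P : ℕ → ℕ → Prop := fun m n => ∀ K ≤ m, ∀ c : Fin K → ℂ,
    -(1 / ((m : ℝ) + 1) * ∑ j, ‖c j‖ ^ 2) ≤
      (∑ j : Fin K, ∑ l : Fin K, c j * (starRingEnd ℂ) (c l) *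
        D4 w φ (2 * ((j : ℤ) - (l : ℤ))) 0 0 0 n).re with hP
  have PP : ∀ m, ∀ᶠ n in atTop, P m n := by
    intro m
    have : ∀ᶠ n in atTop, ∀ K ∈ Set.Iic m, ∀ c : Fin K → ℂ,
        -(1 / ((m : ℝ) + 1) * ∑ j, ‖c j‖ ^ 2) ≤
        (∑ j : Fin K, ∑ l : Fin K, c j * (starRingEnd ℂ) (c l) *
        D4 w φ (2 * ((j : ℤ) - (l : ℤ))) 0 0 0 n).re := by
      rw [eventually_all_finite (Set.finite_Iic m)]
      exact fun K _ => psd H hφ hφ0 K (by positivity)
    filter_upwards [this] with n hn K hK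
    exact hn K hK
  obtain ⟨m, hm, hmP⟩ := diag PP
  have te : Tendsto (fun n => 1 / ((m n : ℝ) + 1)) atTop (𝓝 0) :=
    tendsto_one_div_add_atTop_nhds_zero_nat.comp hm
  refine ⟨fun n j => D4 w φ (2 * j) 0 0 0 n + (if j = 0 then ((1 / ((m n : ℝ) + 1) : ℝ) : ℂ) else 0),
    fun K => ?_, fun a b c d j hs => ?_⟩
  · filter_upwards [hmP, hm.eventually_ge_atTop K] with n hn hK
    have key := hn K hK
    set η : ℝ := 1 / ((m n : ℝ) + 1) with hη
    have hη0 : 0 ≤ η := by positivity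
    refine Matrix.PosSemidef.of_dotProduct_mulVec_nonneg ?_ fun x => ?_
    · ext j l
      simp only [Matrix.conjTranspose_apply, Matrix.of_apply]
      have h1 := D4_conj H hφ ((l : ℤ) - (j : ℤ)) n
      rw [neg_sub] at h1
      rw [h1]
      show (starRingEnd ℂ) (D4 w φ (2 * ((l : ℤ) - (j : ℤ))) 0 0 0 n +
        if (l : ℤ) - (j : ℤ) = 0 then (η : ℂ) else 0) = _
      rw [map_add]
      congr 1
      by_cases hjl : (l : ℤ) - (j : ℤ) = 0
      · rw [if_pos hjl, if_pos (by omega), Complex.conj_ofReal]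
      · rw [if_neg hjl, if_neg (by omega), map_zero]
    · set Q : ℂ := star x ⬝ᵥ ((Matrix.of fun j l : Fin K => D4 w φ (2 * ((j : ℤ) - (l : ℤ))) 0 0 0 n +
        (if (j : ℤ) - (l : ℤ) = 0 then (η : ℂ) else 0)) *ᵥ x) with hQ
      have eQ : Q = (∑ j : Fin K, ∑ l : Fin K, (starRingEnd ℂ) (x j) * x l *
          D4 w φ (2 * ((j : ℤ) - (l : ℤ))) 0 0 0 n) + ((η * ∑ j, ‖x j‖ ^ 2 : ℝ) : ℂ) := by
        rw [hQ]
        simp only [dotProduct, Matrix.mulVec, Matrix.of_apply, Pi.star_apply]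
        have : ((η * ∑ j, ‖x j‖ ^ 2 : ℝ) : ℂ) = ∑ j : Fin K, ∑ l : Fin K,
            (starRingEnd ℂ) (x j) * x l * (if (j : ℤ) - (l : ℤ) = 0 then (η : ℂ) else 0) := by
          push_cast
          rw [Finset.mul_sum]
          refine Finset.sum_congr rfl fun j _ => ?_
          rw [Finset.sum_eq_single j]
          · rw [if_pos (by ring), ← Complex.mul_conj']
            ring
          · intro l _ hl
            rw [if_neg (fun h => hl (by
              have : (j : ℤ) = (l : ℤ) := by omega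
              exact (Fin.ext (by exact_mod_cast this)).symm)), mul_zero]
          · intro h; exact absurd (Finset.mem_univ j) h
        rw [this, ← Finset.sum_add_distrib]
        refine Finset.sum_congr rfl fun j _ => ?_
        rw [Finset.mul_sum, ← Finset.sum_add_distrib]
        refine Finset.sum_congr rfl fun l _ => ?_
        rw [starRingEnd_apply]
        ring
      have hre : 0 ≤ Q.re := by
        have k1 := key (fun j => (starRingEnd ℂ) (x j))
        simp only [RCLike.norm_conj, Complex.conj_conj] at k1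
        rw [eQ, add_re, Complex.ofReal_re]
        linarith
      have him : Q.im = 0 := by
        rw [eQ, add_im, Complex.ofReal_im, add_zero]
        set S : ℂ := ∑ j : Fin K, ∑ l : Fin K, (starRingEnd ℂ) (x j) * x l *
          D4 w φ (2 * ((j : ℤ) - (l : ℤ))) 0 0 0 n with hS
        have : (starRingEnd ℂ) S = S := by
          rw [hS, map_sum]
          simp only [map_sum, map_mul, Complex.conj_conj]
          rw [Finset.sum_comm]
          refine Finset.sum_congr rfl fun j _ => Finset.sum_congr rfl fun l _ => ?_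
          have h1 := D4_conj H hφ ((l : ℤ) - (j : ℤ)) n
          rw [neg_sub] at h1
          rw [← h1]; ring
        exact Complex.conj_eq_iff_im.1 this
      exact Complex.nonneg_iff.2 ⟨hre, him.symm⟩
  · have h1 := (H.dd φ hφ).even a b c d j hs
    have h2 : Tendsto (fun n => eps a b c d *
        (if j = 0 then ((1 / ((m n : ℝ) + 1) : ℝ) : ℂ) else 0)) atTop (𝓝 0) := by
      by_cases hj : j = 0
      · simp only [hj, if_true]
        have h3 : Tendsto (fun n => ((1 / ((m n : ℝ) + 1) : ℝ) : ℂ)) atTop (𝓝 ((0 : ℝ) : ℂ)) :=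
          (Complex.continuous_ofReal.tendsto 0).comp te
        have h4 := h3.const_mul (eps a b c d)
        rwa [Complex.ofReal_zero, mul_zero] at h4
      · simp only [if_neg hj, mul_zero]
        exact tendsto_const_nhds
    have h3 := Tendsto.sub h1 h2
    rw [sub_zero] at h3
    refine h3.congr fun n => ?_
    ring

end

end Pool.Agent.Y265.FX
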